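import Mathlib

/-! Definitions for the statements on smooth renormings of `ℓ_p`-sums. -/

set_option autoImplicit false

namespace Pool.Agent.Helper15.LS

open Filter

universe u v

/-- `N` is an equivalent norm on `X` which is `n` times continuously differentiable off the
origin. -/
def SmoothNorm {X : Type v} [NormedAddCommGroup X] [NormedSpace ℝ X] (n : WithTop ℕ∞) (N : X → ℝ) :
    Prop :=
  (∀ x y : X, N (x + y) ≤ N x + N y) ∧ (∀ (t : ℝ) (x : X), N (t • x) = |t| * N x) ∧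
    (∃ c C : ℝ, 0 < c ∧ ∀ x : X, c * ‖x‖ ≤ N x ∧ N x ≤ C * ‖x‖) ∧
    ContDiffOn ℝ n N {x : X | x ≠ 0}

/-- `M` is an equivalent norm on `X`, of class `C^∞` off the origin, and `M ^ q` is a continuous
`q`-homogeneous polynomial: `M x ^ q = L (x, ..., x)` with `L` a bounded `q`-linear form. -/
def PolyNorm {X : Type v} [NormedAddCommGroup X] [NormedSpace ℝ X] (q : ℕ) (M : X → ℝ) : Prop :=
  SmoothNorm ((⊤ : ℕ∞) : WithTop ℕ∞) M ∧
    ∃ L : ContinuousMultilinearMap ℝ (fun _ : Fin q => X) ℝ, ∀ x : X, M x ^ q = L (fun _ => x)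

/-- `X` has an equivalent norm of class `C^n`. -/
def HasSmoothNorm (X : Type v) [NormedAddCommGroup X] [NormedSpace ℝ X] (n : WithTop ℕ∞) : Prop :=
  ∃ N : X → ℝ, SmoothNorm n N

/-- `X` has an equivalent `C^∞` norm whose `q`-th power is a polynomial. -/
def HasPolyNorm (X : Type v) [NormedAddCommGroup X] [NormedSpace ℝ X] (q : ℕ) : Prop :=
  ∃ M : X → ℝ, PolyNorm q M

section

variable {E : ℕ → Type u} [∀ n, NormedAddCommGroup (E n)]

/-- with constants `c > 0` and `C`, for all large `n`: `c ‖v‖ ^ q ≤ P n v ≤ C ‖v‖ ^ q` -/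
def UnifCoercive (q : ℕ) (P : ∀ n, E n → ℝ) : Prop :=
  ∃ c C : ℝ, 0 < c ∧ ∀ᶠ n in atTop, ∀ v : E n, c * ‖v‖ ^ q ≤ P n v ∧ P n v ≤ C * ‖v‖ ^ q

variable [∀ n, NormedSpace ℝ (E n)]

/-- for every `ε > 0`, for all large `n`, `P n` is convex up to `ε` on the unit ball of `E n` -/
def AsympConvex (P : ∀ n, E n → ℝ) : Prop :=
  ∀ ε > 0, ∀ᶠ n in atTop, ∀ s : ℝ, 0 ≤ s → s ≤ 1 → ∀ v w : E n, ‖v‖ ≤ 1 → ‖w‖ ≤ 1 →
    P n (s • v + (1 - s) • w) ≤ s * P n v + (1 - s) * P n w + ε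

/-- `X` is the `ℓ_p`-sum of the spaces `E n`: the map `J` from `X` to the sequences `(v_n)` with
`v_n` in `E n` is linear, `‖x‖ ^ p` is the sum of the `‖J x n‖ ^ p`, and every sequence `(v_n)` with
`∑ ‖v_n‖ ^ p < ∞` is in the image of `J`. -/
def IsLpSum {X : Type v} [NormedAddCommGroup X] [NormedSpace ℝ X] (p : ℝ) (J : X → ∀ n, E n) :
    Prop :=
  (∀ (x y : X) (n : ℕ), J (x + y) n = J x n + J y n) ∧
    (∀ (t : ℝ) (x : X) (n : ℕ), J (t • x) n = t • J x n) ∧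
    (∀ x, HasSum (fun n => ‖J x n‖ ^ p) (‖x‖ ^ p)) ∧
    ∀ f : ∀ n, E n, Summable (fun n => ‖f n‖ ^ p) → ∃ x, ∀ n, J x n = f n

end

/-- There is a linear map `J` from `A` to `B` with `κ ‖v‖ ≤ ‖J v‖ ≤ K ‖v‖` for all `v` in the span
of `S`. -/
def Represented (κ K : ℝ) (A B : Type u) [NormedAddCommGroup A] [NormedSpace ℝ A]
    [NormedAddCommGroup B] [NormedSpace ℝ B] (S : Finset A) : Prop :=
  ∃ J : A →ₗ[ℝ] B, ∀ v ∈ Submodule.span ℝ (S : Set A), κ * ‖v‖ ≤ ‖J v‖ ∧ ‖J v‖ ≤ K * ‖v‖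

/-- with fixed constants, every finite-dimensional subspace of a space of the sequence (the span of
a finite set `S`) embeds into infinitely many spaces of the sequence -/
def RecurrentBlocks (E : ℕ → Type u) [∀ n, NormedAddCommGroup (E n)] [∀ n, NormedSpace ℝ (E n)] :
    Prop :=
  ∃ κ K : ℝ, 0 < κ ∧ ∀ i (S : Finset (E i)), ∃ᶠ j in atTop, Represented κ K (E i) (E j) S

/-- the polynomial `v ↦ D^q N(x₀)(v, ..., v) / q!`, where `v` in `E` is seen in `X` with the map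
`ι` -/
noncomputable def blockPoly {X : Type v} [NormedAddCommGroup X] [NormedSpace ℝ X] {E : Type u}
    (N : X → ℝ) (x₀ : X) (q : ℕ) (ι : E → X) (v : E) : ℝ :=
  ((q.factorial : ℝ)⁻¹) * iteratedFDeriv ℝ q N x₀ (fun _ => ι v)

end Pool.Agent.Helper15.LS
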