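import Pool.Agent.Helper15.SR.Blocks

/-!
# MP_e464cf_an: necessary condition for arbitrary `ℓ_p`-sums

If the `ℓ_p`-sum of an arbitrary sequence of normed spaces `E n`, infinitely many of them nonzero,
has an equivalent `C^k` norm `N`, `k ≥ p`, then `p` is an even integer and at some point `x₀` the
polynomials `v ↦ D^p N(x₀)(v, ..., v) / p!` on the blocks `E n` are uniformly coercive for large `n`
and asymptotically convex on the unit balls.
-/

set_option autoImplicit false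

namespace Pool.Agent.Helper15.LS.OldBlocks

open Filter
open scoped ENNReal
open Pool.Agent.Helper15.SR

theorem result (E : ℕ → Type*) [∀ n, NormedAddCommGroup (E n)] [∀ n, NormedSpace ℝ (E n)]
    (p : ℝ≥0∞) [Fact (1 ≤ p)] (hp : p ≠ ∞) (hinf : ∃ᶠ n in atTop, ∃ v : E n, v ≠ 0)
    (k : ℕ) (hk : p.toReal ≤ k) (N : lp E p → ℝ) (hN : SmoothNorm (k : WithTop ℕ∞) N) :
    ∃ q : ℕ, p = q ∧ Even q ∧ ∃ x₀ : lp E p, x₀ ≠ 0 ∧
      UnifCoercive q (fun n => blockPoly N x₀ q n) ∧ AsympConvex (fun n => blockPoly N x₀ q n) := by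
  obtain ⟨hadd, hsmul, ⟨a, b, ha, hab⟩, hsm⟩ := hN
  obtain ⟨q, hpq, heven, x₀, hx₀, ⟨c, hc, n₀, hlow⟩, hconv⟩ := blocks hp N hadd hsmul ha
    (fun x => (hab x).1) (fun x => (hab x).2) k hk hsm (fun m => by
      obtain ⟨n, hn, hv⟩ := frequently_atTop.1 hinf m
      exact ⟨n, hn, hv⟩)
  refine ⟨q, ?_, heven, x₀, hx₀, ⟨c, ‖iteratedFDeriv ℝ q N x₀‖, hc, ?_⟩, fun ε hε => ?_⟩
  · rw [← ENNReal.ofReal_toReal hp, hpq, ENNReal.ofReal_natCast]
  · filter_upwards [eventually_ge_atTop n₀] with n hn v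
    exact ⟨hlow n hn v, (le_abs_self _).trans (blockPoly_le N x₀ q n v)⟩
  · obtain ⟨n₁, hn₁⟩ := hconv ε hε
    filter_upwards [eventually_ge_atTop n₁] with n hn s hs0 hs1 v w hv hw
    exact hn₁ n hn s hs0 hs1 v w hv hw

end Pool.Agent.Helper15.LS.OldBlocks
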