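import Pool.Agent.Helper15.SR.Sums

/-!
# MP_e464cf_an: the problem for `ℓ_p`-sums with recurrent blocks

Let `X` be the `ℓ_p`-sum of separable spaces `E n`, `1 ≤ p < ∞`, such that, with fixed constants,
every finite-dimensional subspace of a block embeds into infinitely many blocks. If `X` has an
equivalent `C^k` norm for one integer `k ≥ p`, then `X` has an equivalent `C^∞` norm; if moreover
`X ≠ 0`, then `p` is an even integer and the `p`-th power of the norm is a polynomial.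
-/

set_option autoImplicit false

namespace Pool.Agent.Helper15.LS.OldLpSums

open Filter
open scoped ENNReal
open Pool.Agent.Helper15.SR

theorem result (E : ℕ → Type*) [∀ n, NormedAddCommGroup (E n)] [∀ n, NormedSpace ℝ (E n)]
    [∀ n, TopologicalSpace.SeparableSpace (E n)] (p : ℝ≥0∞) [Fact (1 ≤ p)] (hp : p ≠ ∞)
    (hrec : RecurrentBlocks E) (k : ℕ) (hk : p.toReal ≤ k)
    (hX : HasSmoothNorm (lp E p) (k : WithTop ℕ∞)) :
    HasSmoothNorm (lp E p) ((⊤ : ℕ∞) : WithTop ℕ∞) ∧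
      ((∃ n, ∃ v : E n, v ≠ 0) → ∃ q : ℕ, p = q ∧ Even q ∧ HasPolyNorm (lp E p) q) := by
  obtain ⟨κ, K, hκ, hrec⟩ := hrec
  have hp0 : 0 < p := zero_lt_one.trans_le Fact.out
  have key : (∃ x : lp E p, x ≠ 0) →
      ∃ q : ℕ, p = q ∧ Even q ∧ ∃ M : lp E p → ℝ, PolyNorm q M := by
    intro hne
    obtain ⟨N, hN⟩ := hX
    obtain ⟨q, hpq, heven, L, M, hM, -, hML⟩ := sums_sep hp hκ hrec hne k hk N hN
    refine ⟨q, ?_, heven, M, hM, L, hML⟩
    rw [← ENNReal.ofReal_toReal hp, hpq, ENNReal.ofReal_natCast]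
  refine ⟨?_, fun ⟨n, v, hv⟩ => key ⟨lp.single p n v, fun h => ?_⟩⟩
  · by_cases hne : ∃ x : lp E p, x ≠ 0
    · obtain ⟨q, -, -, M, hM, -⟩ := key hne
      exact ⟨M, hM⟩
    · push Not at hne
      refine ⟨fun _ => 0, fun _ _ => by simp, fun _ _ => by simp, ⟨1, 1, one_pos, fun x => ?_⟩,
        contDiffOn_const⟩
      rw [hne x]
      simp
  · have h1 := lp.norm_single hp0 n v
    rw [h, norm_zero] at h1
    exact hv (norm_eq_zero.1 h1.symm)

end Pool.Agent.Helper15.LS.OldLpSums
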