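import Pool.Agent.Helper15.LS.Defs
import Pool.Agent.Helper15.LS.OldLpSums
import Pool.Agent.Helper15.LS.OldBlocks

/-! `ℓ_p`-sums: the theorems in terms of the definitions in `LS/Defs.lean`. -/

set_option autoImplicit false

namespace Pool.Agent.Helper15.LS

open Filter
open scoped ENNReal

universe u v w

section transport

variable {X : Type v} [NormedAddCommGroup X] [NormedSpace ℝ X] {Y : Type w} [NormedAddCommGroup Y]
  [NormedSpace ℝ Y]

theorem transport (e : X ≃ₗᵢ[ℝ] Y) {n : WithTop ℕ∞} {N : Y → ℝ} (h : SR.SmoothNorm n N) :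
    SmoothNorm n (fun x => N (e x)) := by
  obtain ⟨h1, h2, ⟨c, C, hc, h3⟩, h4⟩ := h
  refine ⟨fun x y => ?_, fun t x => ?_, ⟨c, C, hc, fun x => ?_⟩, ?_⟩
  · simpa only [map_add] using h1 (e x) (e y)
  · simpa only [map_smul] using h2 t (e x)
  · have := h3 (e x)
    rwa [e.norm_map] at this
  · refine h4.comp e.contDiff.contDiffOn fun x hx => ?_
    simpa using hx

theorem transport' (e : X ≃ₗᵢ[ℝ] Y) {n : WithTop ℕ∞} {N : X → ℝ} (h : SmoothNorm n N) :
    SR.SmoothNorm n (fun y => N (e.symm y)) := by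
  obtain ⟨h1, h2, ⟨c, C, hc, h3⟩, h4⟩ := h
  refine ⟨fun x y => ?_, fun t x => ?_, ⟨c, C, hc, fun x => ?_⟩, ?_⟩
  · simpa only [map_add] using h1 (e.symm x) (e.symm y)
  · simpa only [map_smul] using h2 t (e.symm x)
  · have := h3 (e.symm x)
    rwa [e.symm.norm_map] at this
  · refine h4.comp e.symm.contDiff.contDiffOn fun x hx => ?_
    simpa using hx

theorem transport_poly (e : X ≃ₗᵢ[ℝ] Y) {q : ℕ} {M : Y → ℝ} (h : SR.PolyNorm q M) :
    PolyNorm q (fun x => M (e x)) := by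
  obtain ⟨h1, L, hL⟩ := h
  exact ⟨transport e h1, L.compContinuousLinearMap fun _ => e.toContinuousLinearEquiv,
    fun x => hL (e x)⟩

end transport

section

variable {E : ℕ → Type u} [∀ n, NormedAddCommGroup (E n)] [∀ n, NormedSpace ℝ (E n)]
  {X : Type v} [NormedAddCommGroup X] [NormedSpace ℝ X]

theorem exists_iso {p : ℝ} (hp : 1 ≤ p) {J : X → ∀ n, E n} (hJ : IsLpSum p J)
    [Fact (1 ≤ ENNReal.ofReal p)] :
    ∃ e : X ≃ₗᵢ[ℝ] lp E (ENNReal.ofReal p), ∀ x n, e x n = J x n := by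
  obtain ⟨hadd, hsmul, hnorm, hsurj⟩ := hJ
  have hp0 : 0 < p := by linarith
  have hpr : (ENNReal.ofReal p).toReal = p := ENNReal.toReal_ofReal hp0.le
  have hmem : ∀ x, Memℓp (J x) (ENNReal.ofReal p) := fun x => by
    refine memℓp_gen ?_
    rw [hpr]
    exact (hnorm x).summable
  let f : X →ₗ[ℝ] lp E (ENNReal.ofReal p) :=
    { toFun := fun x => ⟨J x, hmem x⟩
      map_add' := fun x y => Subtype.ext (funext fun n => hadd x y n)
      map_smul' := fun t x => Subtype.ext (funext fun n => hsmul t x n) }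
  have hf : ∀ x n, f x n = J x n := fun x n => rfl
  have hfn : ∀ x, ‖f x‖ = ‖x‖ := fun x => by
    have h1 := lp.norm_rpow_eq_tsum (p := ENNReal.ofReal p) (by rw [hpr]; exact hp0) (f x)
    rw [hpr] at h1
    have h2 : ‖f x‖ ^ p = ‖x‖ ^ p := h1.trans (hnorm x).tsum_eq
    exact (Real.rpow_left_inj (norm_nonneg _) (norm_nonneg _) hp0.ne').1 h2
  let F : X →ₗᵢ[ℝ] lp E (ENNReal.ofReal p) := ⟨f, hfn⟩
  have hF : Function.Surjective F := fun y => by
    have hy := (lp.memℓp y).summable (by rw [hpr]; exact hp0)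
    rw [hpr] at hy
    obtain ⟨x, hx⟩ := hsurj y hy
    exact ⟨x, Subtype.ext (funext fun n => hx n)⟩
  exact ⟨LinearIsometryEquiv.ofSurjective F hF, fun x n => rfl⟩

theorem recurrent_old {E : ℕ → Type u} [∀ n, NormedAddCommGroup (E n)] [∀ n, NormedSpace ℝ (E n)]
    (h : RecurrentBlocks E) : SR.RecurrentBlocks E := by
  obtain ⟨κ, K, hκ, h⟩ := h
  refine ⟨κ, K, hκ, fun i G hG => ?_⟩
  obtain ⟨S, hS⟩ := (Submodule.fg_iff_finiteDimensional G).2 hG
  refine (h i S).mono fun j hj => ?_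
  obtain ⟨J, hJ⟩ := hj
  rw [hS] at hJ
  exact ⟨(J.comp G.subtype).toContinuousLinearMap, fun v => hJ v v.2⟩

theorem lpSums {p : ℝ} (hp : 1 ≤ p) {J : X → ∀ n, E n} (hJ : IsLpSum p J)
    [∀ n, TopologicalSpace.SeparableSpace (E n)] (hrec : RecurrentBlocks E) (k : ℕ) (hk : p ≤ k)
    (hX : HasSmoothNorm X (k : WithTop ℕ∞)) :
    HasSmoothNorm X ((⊤ : ℕ∞) : WithTop ℕ∞) ∧
      ((∃ x : X, x ≠ 0) → ∃ q : ℕ, p = q ∧ Even q ∧ HasPolyNorm X q) := by
  have hp0 : 0 < p := by linarith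
  have hpr : (ENNReal.ofReal p).toReal = p := ENNReal.toReal_ofReal hp0.le
  have : Fact (1 ≤ ENNReal.ofReal p) := ⟨by simpa using hp⟩
  obtain ⟨e, he⟩ := exists_iso hp hJ
  obtain ⟨N, hN⟩ := hX
  obtain ⟨⟨M, hM⟩, h2⟩ := OldLpSums.result E (ENNReal.ofReal p) ENNReal.ofReal_ne_top (recurrent_old hrec) k
    (by rwa [hpr]) ⟨_, transport' e hN⟩
  refine ⟨⟨_, transport e hM⟩, fun ⟨x, hx⟩ => ?_⟩
  obtain ⟨q, hq, heven, M, hM⟩ := h2 (by
    by_contra hcon
    push Not at hcon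
    refine hx (e.injective ?_)
    rw [map_zero]
    exact Subtype.ext (funext fun n => hcon n _))
  refine ⟨q, ?_, heven, _, transport_poly e hM⟩
  rw [← hpr, hq, ENNReal.toReal_natCast]

theorem blocks {p : ℝ} (hp : 1 ≤ p) {J : X → ∀ n, E n} (hJ : IsLpSum p J)
    (hinf : ∃ᶠ n in atTop, ∃ v : E n, v ≠ 0) (k : ℕ) (hk : p ≤ k) (N : X → ℝ)
    (hN : SmoothNorm (k : WithTop ℕ∞) N) (ι : ∀ n, E n → X)
    (hι : ∀ n v, J (ι n v) = Pi.single n v) :
    ∃ q : ℕ, p = q ∧ Even q ∧ ∃ x₀ : X, x₀ ≠ 0 ∧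
      UnifCoercive q (fun n => blockPoly N x₀ q (ι n)) ∧
      AsympConvex (fun n => blockPoly N x₀ q (ι n)) := by
  have hp0 : 0 < p := by linarith
  have hpr : (ENNReal.ofReal p).toReal = p := ENNReal.toReal_ofReal hp0.le
  have : Fact (1 ≤ ENNReal.ofReal p) := ⟨by simpa using hp⟩
  obtain ⟨e, he⟩ := exists_iso hp hJ
  obtain ⟨q, hq, heven, y, hy, h1, h2⟩ := OldBlocks.result E (ENNReal.ofReal p)
    ENNReal.ofReal_ne_top hinf k (by rwa [hpr]) _ (transport' e hN)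
  have hb : (fun n => SR.blockPoly (fun y => N (e.symm y)) y q n)
      = fun n => blockPoly N (e.symm y) q (ι n) := by
    funext n v
    have h3 : e.symm (lp.single (ENNReal.ofReal p) n v) = ι n v := by
      rw [LinearIsometryEquiv.symm_apply_eq]
      refine Subtype.ext ?_
      rw [lp.coeFn_single]
      exact ((funext fun m => he (ι n v) m).trans (hι n v)).symm
    have h4 := e.symm.toContinuousLinearEquiv.iteratedFDerivWithin_comp_right N
      (s := Set.univ) uniqueDiffOn_univ (x := y) trivial q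
    rw [Set.preimage_univ, iteratedFDerivWithin_univ, iteratedFDerivWithin_univ] at h4
    have h5 := congrArg (fun L : ContinuousMultilinearMap ℝ
      (fun _ : Fin q => lp E (ENNReal.ofReal p)) ℝ => L fun _ => lp.single (ENNReal.ofReal p) n v) h4
    unfold SR.blockPoly blockPoly
    refine congrArg _ (Eq.trans h5 ?_)
    show iteratedFDeriv ℝ q N (e.symm y) (fun _ => e.symm (lp.single (ENNReal.ofReal p) n v)) = _
    rw [h3]
  rw [hb] at h1 h2
  refine ⟨q, ?_, heven, e.symm y, ?_, h1, h2⟩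
  · rw [← hpr, hq, ENNReal.toReal_natCast]
  · simpa using hy

end

end Pool.Agent.Helper15.LS
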